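import Mathlib

set_option autoImplicit false
set_option linter.unusedSectionVars false

/-!
# e-separable powers of discrete spaces which are not E-separable

For a discrete space `L` with at least two points and `μ = max |L| ℵ₀`, the power `L^I` is
E-separable exactly when `|I| ≤ μ`, while it is e-separable whenever `|I| ≤ 2^μ`.
-/

namespace Pool.Agent.Results.MP_a67be6_gt.PowersOfDiscrete

open Cardinal Set Topology

universe u

/-- `A` is a closed discrete subset of `X`. -/
def IsClosedDiscrete {X : Type u} [TopologicalSpace X] (A : Set X) : Prop :=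
  IsClosed A ∧ IsDiscrete A

/-- `X` is e-separable: it has a dense subset which is a countable union of closed discrete
subsets of `X`. -/
def IsLowerESeparable (X : Type u) [TopologicalSpace X] : Prop :=
  ∃ A : ℕ → Set X, (∀ n, IsClosedDiscrete (A n)) ∧ Dense (⋃ n, A n)

/-- `X` is E-separable: for every sequence `D` of dense subsets of `X` there are closed discrete
subsets `E n` of `X` with `E n ⊆ D n` whose union is dense in `X`. -/
def IsUpperESeparable (X : Type u) [TopologicalSpace X] : Prop :=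
  ∀ D : ℕ → Set X, (∀ n, Dense (D n)) →
    ∃ E : ℕ → Set X, (∀ n, E n ⊆ D n) ∧ (∀ n, IsClosedDiscrete (E n)) ∧ Dense (⋃ n, E n)

section

variable {L I : Type u} [TopologicalSpace L] [DiscreteTopology L]

/-- Basic neighbourhoods in a power of a discrete space. -/
theorem mem_nhds_pow {x : I → L} {U : Set (I → L)} :
    U ∈ 𝓝 x ↔ ∃ F : Finset I, {y | ∀ i ∈ F, y i = x i} ⊆ U := by
  rw [nhds_pi, Filter.mem_pi]
  constructor
  · rintro ⟨J, hJ, t, ht, hU⟩
    refine ⟨hJ.toFinset, fun y hy => hU ?_⟩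
    intro i hi
    have : y i = x i := hy i (by simpa using hi)
    rw [this]
    exact mem_of_mem_nhds (ht i)
  · rintro ⟨F, hF⟩
    refine ⟨F, F.finite_toSet, fun i => {x i}, fun i => by simp, fun y hy => hF ?_⟩
    intro i hi
    simpa using hy i hi

theorem isOpen_cyl (F : Finset I) (x : I → L) : IsOpen {y : I → L | ∀ i ∈ F, y i = x i} := by
  rw [isOpen_iff_mem_nhds]
  intro y hy
  rw [mem_nhds_pow]
  refine ⟨F, fun z hz i hi => ?_⟩
  rw [hz i hi, hy i hi]

theorem dense_iff_cyl {A : Set (I → L)} :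
    Dense A ↔ ∀ (F : Finset I) (x : I → L), ∃ y ∈ A, ∀ i ∈ F, y i = x i := by
  constructor
  · intro h F x
    obtain ⟨y, hy, hy'⟩ := h.inter_open_nonempty _ (isOpen_cyl F x) ⟨x, fun i _ => rfl⟩
    exact ⟨y, hy', hy⟩
  · intro h x
    rw [mem_closure_iff_nhds]
    intro U hU
    obtain ⟨F, hF⟩ := mem_nhds_pow.1 hU
    obtain ⟨y, hy, hy'⟩ := h F x
    exact ⟨y, hF hy', hy⟩

/-- A set on which some coordinate is injective is closed discrete. -/
theorem closedDiscrete_of_injOn {A : Set (I → L)} (i : I) (h : InjOn (fun x : I → L => x i) A) :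
    IsClosedDiscrete A := by
  have key : ∀ y : I → L, ∃ U ∈ 𝓝 y, U ∩ A ⊆ {y} := by
    intro y
    by_cases hy : ∃ w ∈ A, w i = y i
    · obtain ⟨w, hw, hwi⟩ := hy
      by_cases hwy : w = y
      · subst hwy
        refine ⟨{z | ∀ j ∈ ({i} : Finset I), z j = w j}, (isOpen_cyl _ _).mem_nhds
          (fun j _ => rfl), ?_⟩
        rintro z ⟨hz, hzA⟩
        exact h hzA hw (hz i (by simp))
      · obtain ⟨j, hj⟩ := Function.ne_iff.1 hwy
        classical
        refine ⟨{z | ∀ l ∈ ({i, j} : Finset I), z l = y l}, (isOpen_cyl _ _).mem_nhds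
          (fun j _ => rfl), ?_⟩
        rintro z ⟨hz, hzA⟩
        exfalso
        have hzi : z i = y i := hz i (by simp)
        have hzj : z j = y j := hz j (by simp)
        have : z = w := h hzA hw (by simp [hzi, hwi])
        exact hj (by rw [← this, hzj])
    · refine ⟨{z | ∀ j ∈ ({i} : Finset I), z j = y j}, (isOpen_cyl _ _).mem_nhds
          (fun j _ => rfl), ?_⟩
      rintro z ⟨hz, hzA⟩
      exact (hy ⟨z, hzA, hz i (by simp)⟩).elim
  refine ⟨?_, ?_⟩
  · rw [← isOpen_compl_iff, isOpen_iff_mem_nhds]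
    intro y hy
    obtain ⟨U, hU, hUA⟩ := key y
    filter_upwards [hU] with z hz hzA
    have := hUA ⟨hz, hzA⟩
    rw [mem_singleton_iff] at this
    exact hy (this ▸ hzA)
  · refine ⟨?_⟩
    rw [discreteTopology_subtype_iff]
    intro y hy
    obtain ⟨U, hU, hUA⟩ := key y
    rw [← Filter.empty_mem_iff_bot, Filter.mem_inf_principal]
    rw [mem_nhdsWithin_iff_exists_mem_nhds_inter]
    refine ⟨U, hU, ?_⟩
    rintro z ⟨hz, hzy⟩ hzA
    exact (hzy (hUA ⟨hz, hzA⟩)).elim

theorem closedDiscrete_singleton (x : I → L) : IsClosedDiscrete ({x} : Set (I → L)) :=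
  ⟨isClosed_singleton, ⟨inferInstance⟩⟩

/-- The set of points with all coordinates in a finite set is compact. -/
theorem isCompact_box (S : Finset L) : IsCompact {x : I → L | ∀ i, x i ∈ S} := by
  have : {x : I → L | ∀ i, x i ∈ S} = Set.univ.pi fun _ => (S : Set L) := by
    ext x; simp
  rw [this]
  exact isCompact_univ_pi fun _ => S.finite_toSet.isCompact

theorem finite_inter_compact {A K : Set (I → L)} (hA : IsClosedDiscrete A) (hK : IsCompact K) :
    (A ∩ K).Finite := by
  have h1 : IsCompact (A ∩ K) := hK.inter_left hA.1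
  have h2 : DiscreteTopology (A ∩ K : Set (I → L)) := by
    have := hA.2.to_subtype
    exact DiscreteTopology.of_subset this inter_subset_left
  exact h1.finite ⟨h2⟩

/-- A closed discrete set all of whose points have finite range has cardinality at most
`max |L| ℵ₀`. -/
theorem card_le_of_closedDiscrete [Nonempty L] {A : Set (I → L)} (hA : IsClosedDiscrete A)
    (hfin : ∀ x ∈ A, (Set.range x).Finite) : #A ≤ max #L ℵ₀ := by
  have hsub : A ⊆ ⋃ S : Finset L, A ∩ {x | ∀ i, x i ∈ S} := by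
    intro x hx
    rw [mem_iUnion]
    refine ⟨(hfin x hx).toFinset, hx, fun i => ?_⟩
    simp
  calc #A ≤ #(⋃ S : Finset L, A ∩ {x | ∀ i, x i ∈ S}) := mk_le_mk_of_subset hsub
    _ ≤ Cardinal.sum fun S : Finset L => #(A ∩ {x | ∀ i, x i ∈ S} : Set (I → L)) :=
        mk_iUnion_le_sum_mk
    _ ≤ Cardinal.sum fun _ : Finset L => ℵ₀ := by
        refine Cardinal.sum_le_sum _ _ fun S => ?_
        exact (finite_inter_compact hA (isCompact_box S)).lt_aleph0.le
    _ = #(Finset L) * ℵ₀ := by simp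
    _ ≤ max #L ℵ₀ := by
        refine (Cardinal.mul_le_max _ _).trans ?_
        refine max_le (max_le ?_ (le_max_right _ _)) (le_max_right _ _)
        rcases finite_or_infinite L with h | h
        · exact (lt_aleph0_of_finite _).le.trans (le_max_right _ _)
        · rw [Cardinal.mk_finset_of_infinite]
          exact le_max_left _ _

/-- The cardinality of a countable union of sets of cardinality at most `μ ≥ ℵ₀`. -/
theorem card_iUnion_le {X J : Type u} {μ : Cardinal.{u}} (hμ : ℵ₀ ≤ μ) (hJ : #J ≤ μ)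
    (A : J → Set X) (hA : ∀ j, #(A j) ≤ μ) : #(⋃ j, A j) ≤ μ := by
  calc #(⋃ j, A j) ≤ Cardinal.sum fun j => #(A j) := mk_iUnion_le_sum_mk
    _ ≤ Cardinal.sum fun _ : J => μ := Cardinal.sum_le_sum _ _ hA
    _ = #J * μ := by simp
    _ ≤ μ * μ := by gcongr
    _ = μ := Cardinal.mul_eq_self hμ

theorem not_upper [Nontrivial L] (h : max #L ℵ₀ < #I) : ¬ IsUpperESeparable (I → L) := by
  classical
  intro hX
  obtain ⟨a, b, hab⟩ := exists_pair_ne L
  have hμ : ℵ₀ ≤ max #L ℵ₀ := le_max_right _ _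
  set D : Set (I → L) := {x | {i | x i ≠ a}.Finite} with hDdef
  have hD : Dense D := by
    rw [dense_iff_cyl]
    intro F x
    refine ⟨fun i => if i ∈ F then x i else a, ?_, fun i hi => by simp [hi]⟩
    refine F.finite_toSet.subset ?_
    intro i hi
    by_contra hiF
    have hiF' : i ∉ F := by simpa using hiF
    simp [hiF'] at hi
  obtain ⟨E, hED, hE, hdense⟩ := hX (fun _ => D) (fun _ => hD)
  have hcardE : ∀ n, #(E n) ≤ max #L ℵ₀ := by
    intro n
    refine card_le_of_closedDiscrete (hE n) fun x hx => ?_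
    have hx' : {i | x i ≠ a}.Finite := hED n hx
    refine ((hx'.image x).insert a).subset ?_
    rintro _ ⟨i, rfl⟩
    by_cases hi : x i = a
    · exact Or.inl hi
    · exact Or.inr ⟨i, hi, rfl⟩
  have hcardU : #(⋃ n, E n) ≤ max #L ℵ₀ := by
    have h1 : (⋃ n, E n) = ⋃ n : ULift.{u} ℕ, E n.down := by
      ext x; simp
    rw [h1]
    refine card_iUnion_le hμ ?_ _ fun n => hcardE n.down
    simp
  set S : Set I := ⋃ x : (⋃ n, E n : Set (I → L)), {i | x.1 i ≠ a} with hS
  have hcardS : #S ≤ max #L ℵ₀ := by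
    refine card_iUnion_le hμ hcardU _ fun x => ?_
    obtain ⟨n, hn⟩ := mem_iUnion.1 x.2
    have hx' : {i | x.1 i ≠ a}.Finite := hED n hn
    exact hx'.lt_aleph0.le.trans hμ
  have hne : S ≠ Set.univ := by
    intro hSu
    rw [hSu, mk_univ] at hcardS
    exact absurd hcardS (not_le.2 h)
  obtain ⟨i, hi⟩ := (ne_univ_iff_exists_notMem S).1 hne
  obtain ⟨y, hy, hyi⟩ := dense_iff_cyl.1 hdense {i} (fun _ => b)
  apply hi
  rw [hS, mem_iUnion]
  refine ⟨⟨y, hy⟩, ?_⟩
  have : y i = b := hyi i (by simp)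
  simp [this, hab.symm]

theorem card_fin_supp_le (M : Type u) (Y : Finset M → Type u) (hM : #M ≤ max #L ℵ₀)
    (hY : ∀ F, #(Y F) ≤ max #L ℵ₀) : #(Σ F : Finset M, Y F) ≤ max #L ℵ₀ := by
  have hμ : ℵ₀ ≤ max #L ℵ₀ := le_max_right _ _
  have hF : #(Finset M) ≤ max #L ℵ₀ := by
    rcases finite_or_infinite M with h | h
    · exact (lt_aleph0_of_finite _).le.trans (le_max_right _ _)
    · rwa [Cardinal.mk_finset_of_infinite]
  calc #(Σ F : Finset M, Y F) = Cardinal.sum fun F => #(Y F) := mk_sigma _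
    _ ≤ Cardinal.sum fun _ : Finset M => max #L ℵ₀ := Cardinal.sum_le_sum _ _ hY
    _ = #(Finset M) * max #L ℵ₀ := by simp
    _ ≤ max #L ℵ₀ * max #L ℵ₀ := by gcongr
    _ = max #L ℵ₀ := Cardinal.mul_eq_self hμ

theorem card_fun_le (T : Type u) [Finite T] : #(T → L) ≤ max #L ℵ₀ := by
  have hμ : ℵ₀ ≤ max #L ℵ₀ := le_max_right _ _
  obtain ⟨n, hn⟩ := Cardinal.lt_aleph0.1 (lt_aleph0_of_finite T)
  calc #(T → L) = #L ^ #T := (Cardinal.power_def _ _).symm
    _ = #L ^ n := by rw [hn, Cardinal.power_natCast]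
    _ ≤ (max #L ℵ₀) ^ n := by gcongr; exact le_max_left _ _
    _ ≤ max #L ℵ₀ := by
        rw [← Cardinal.power_natCast]
        exact Cardinal.power_nat_le hμ

/-- Either `L` is infinite and a type of cardinality at most `max |L| ℵ₀` embeds in `L`, or it is
countable. -/
theorem embed_or_countable {P : Type u} (hP : #P ≤ max #L ℵ₀) :
    (∃ f : P → L, Function.Injective f) ∨ Countable P := by
  rcases finite_or_infinite L with h | h
  · right
    have : max #L ℵ₀ = ℵ₀ := max_eq_right (lt_aleph0_of_finite _).le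
    rw [this] at hP
    exact Cardinal.mk_le_aleph0_iff.1 hP
  · left
    have : max #L ℵ₀ = #L := max_eq_left (Cardinal.aleph0_le_mk L)
    rw [this] at hP
    obtain ⟨f⟩ := Cardinal.le_def _ _ |>.1 hP
    exact ⟨f, f.injective⟩

theorem exists_notMem_finset {c : ℕ → I} (hc : Function.Injective c) (F : Finset I) :
    ∃ n, c n ∉ F := by
  by_contra h
  push Not at h
  have : (Set.univ : Set ℕ).Finite := by
    refine Set.Finite.of_injOn (f := c) (t := (F : Set I)) (fun n _ => h n) hc.injOn F.finite_toSet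
  exact Set.infinite_univ this

theorem upper [Nonempty L] (h : #I ≤ max #L ℵ₀) : IsUpperESeparable (I → L) := by
  classical
  intro D hD
  rcases finite_or_infinite I with hI | hI
  · exact ⟨D, fun _ => le_rfl, fun n => ⟨isClosed_discrete _, ⟨inferInstance⟩⟩,
      (hD 0).mono (subset_iUnion _ 0)⟩
  set P : Type u := Σ F : Finset I, (F → L) with hPdef
  have hP : #P ≤ max #L ℵ₀ := card_fin_supp_le I _ h fun F => card_fun_le _
  obtain ⟨a⟩ := (inferInstance : Nonempty L)
  let ex : P → I → L := fun p i => if hi : i ∈ p.1 then p.2 ⟨i, hi⟩ else a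
  rcases embed_or_countable hP with ⟨f, hf⟩ | hcount
  · obtain ⟨c, hc⟩ : ∃ c : ℕ → I, Function.Injective c :=
      ⟨Infinite.natEmbedding I, (Infinite.natEmbedding I).injective⟩
    have hy : ∀ (n : ℕ) (p : P), ∃ y ∈ D n, ∀ i ∈ insert (c n) p.1,
        y i = Function.update (ex p) (c n) (f p) i := fun n p => dense_iff_cyl.1 (hD n) _ _
    choose y hyD hy using hy
    refine ⟨fun n => range (y n), ?_, ?_, ?_⟩
    · rintro n _ ⟨p, rfl⟩
      exact hyD n p
    · intro n
      apply closedDiscrete_of_injOn (c n)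
      rintro _ ⟨p, rfl⟩ _ ⟨q, rfl⟩ hpq
      have h1 := hy n p (c n) (Finset.mem_insert_self _ _)
      have h2 := hy n q (c n) (Finset.mem_insert_self _ _)
      simp only [Function.update_self] at h1 h2
      have : f p = f q := by rw [← h1, ← h2]; exact hpq
      rw [hf this]
    · rw [dense_iff_cyl]
      intro F x
      obtain ⟨n, hn⟩ := exists_notMem_finset hc F
      refine ⟨y n ⟨F, fun i => x i⟩, mem_iUnion.2 ⟨n, mem_range_self _⟩, fun i hi => ?_⟩
      rw [hy n ⟨F, fun i => x i⟩ i (Finset.mem_insert_of_mem hi), Function.update_of_ne]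
      · simp [ex, hi]
      · rintro rfl
        exact hn hi
  · have hne : Nonempty P := ⟨⟨∅, fun _ => a⟩⟩
    obtain ⟨g, hg⟩ := exists_surjective_nat P
    have hy : ∀ n : ℕ, ∃ y ∈ D n, ∀ i ∈ (g n).1, y i = ex (g n) i :=
      fun n => dense_iff_cyl.1 (hD n) _ _
    choose y hyD hy using hy
    refine ⟨fun n => {y n}, fun n => by simpa using hyD n,
      fun n => closedDiscrete_singleton _, ?_⟩
    rw [dense_iff_cyl]
    intro F x
    obtain ⟨n, hn⟩ := hg ⟨F, fun i => x i⟩
    refine ⟨y n, mem_iUnion.2 ⟨n, rfl⟩, fun i hi => ?_⟩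
    rw [hy n i (by rw [hn]; exact hi), hn]
    simp [ex, hi]

/-- The Hewitt-Marczewski-Pondiczery argument: a dense family indexed by a type of cardinality
at most `max |L| ℵ₀` in `L^I` for `|I| ≤ 2 ^ max |L| ℵ₀`. -/
theorem exists_dense_family [Nonempty L] (h : #I ≤ 2 ^ max #L ℵ₀) :
    ∃ (P : Type u) (pt : P → I → L), #P ≤ max #L ℵ₀ ∧ Dense (range pt) := by
  classical
  obtain ⟨a⟩ := (inferInstance : Nonempty L)
  set M : Type u := L × ULift.{u} ℕ with hMdef
  have hM : #M = max #L ℵ₀ := by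
    rw [hMdef, Cardinal.mk_prod, Cardinal.lift_id, Cardinal.lift_id]
    rw [Cardinal.mk_uLift, Cardinal.mk_nat, Cardinal.lift_aleph0]
    rw [Cardinal.mul_eq_max_of_aleph0_le_right (Cardinal.mk_ne_zero L) le_rfl]
  rw [← hM, ← Cardinal.mk_set] at h
  obtain ⟨ι⟩ := Cardinal.le_def _ _ |>.1 h
  refine ⟨Σ F : Finset M, (Set F → L), fun p i => p.2 {m | (m : M) ∈ ι i}, ?_, ?_⟩
  · exact card_fin_supp_le M _ hM.le fun F => card_fun_le _
  · rw [dense_iff_cyl]
    intro F0 x
    have hsep : ∀ i j : I, ∃ m : M, i ≠ j → ¬ (m ∈ ι i ↔ m ∈ ι j) := by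
      intro i j
      by_cases hij : i = j
      · exact ⟨(a, ⟨0⟩), fun h => (h hij).elim⟩
      · have : ι i ≠ ι j := fun h => hij (ι.injective h)
        by_contra hcon
        push Not at hcon
        exact this (Set.ext fun m => (hcon m).2)
    choose s hs using hsep
    set F : Finset M := (F0 ×ˢ F0).image fun q => s q.1 q.2 with hF
    let tr : I → Set F := fun i => {m : F | (m : M) ∈ ι i}
    have htr : ∀ i ∈ F0, ∀ j ∈ F0, tr i = tr j → i = j := by
      intro i hi j hj hij
      by_contra hne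
      have hmem : s i j ∈ F := by
        rw [hF, Finset.mem_image]
        exact ⟨(i, j), Finset.mem_product.2 ⟨hi, hj⟩, rfl⟩
      have := Set.ext_iff.1 hij ⟨s i j, hmem⟩
      exact hs i j hne this
    let g : Set F → L := fun t => if ht : ∃ i ∈ F0, tr i = t then x ht.choose else a
    refine ⟨_, ⟨⟨F, g⟩, rfl⟩, fun i hi => ?_⟩
    have hex : ∃ j ∈ F0, tr j = tr i := ⟨i, hi, rfl⟩
    have h3 : hex.choose = i := htr _ hex.choose_spec.1 _ hi hex.choose_spec.2
    change g (tr i) = x i
    simp only [g, dif_pos hex, h3]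

theorem lower [Nonempty L] (h : #I ≤ 2 ^ max #L ℵ₀) : IsLowerESeparable (I → L) := by
  classical
  rcases finite_or_infinite I with hI | hI
  · exact ⟨fun _ => Set.univ, fun n => ⟨isClosed_discrete _, ⟨inferInstance⟩⟩,
      dense_univ.mono (subset_iUnion (fun _ : ℕ => (Set.univ : Set (I → L))) 0)⟩
  obtain ⟨P, pt, hP, hd⟩ := exists_dense_family h
  rcases embed_or_countable hP with ⟨f, hf⟩ | hcount
  · obtain ⟨c, hc⟩ : ∃ c : ℕ → I, Function.Injective c :=
      ⟨Infinite.natEmbedding I, (Infinite.natEmbedding I).injective⟩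
    refine ⟨fun n => range fun p => Function.update (pt p) (c n) (f p), ?_, ?_⟩
    · intro n
      apply closedDiscrete_of_injOn (c n)
      rintro _ ⟨p, rfl⟩ _ ⟨q, rfl⟩ hpq
      simp only [Function.update_self] at hpq
      rw [hf hpq]
    · rw [dense_iff_cyl]
      intro F x
      obtain ⟨n, hn⟩ := exists_notMem_finset hc F
      obtain ⟨_, ⟨p, rfl⟩, hp⟩ := dense_iff_cyl.1 hd F x
      refine ⟨Function.update (pt p) (c n) (f p), mem_iUnion.2 ⟨n, p, rfl⟩, fun i hi => ?_⟩
      rw [Function.update_of_ne, hp i hi]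
      rintro rfl
      exact hn hi
  · obtain ⟨a⟩ := (inferInstance : Nonempty L)
    have hne : Nonempty P := by
      obtain ⟨_, ⟨p, rfl⟩, -⟩ := dense_iff_cyl.1 hd ∅ (fun _ => a)
      exact ⟨p⟩
    obtain ⟨g, hg⟩ := exists_surjective_nat P
    refine ⟨fun n => {pt (g n)}, fun n => closedDiscrete_singleton _, ?_⟩
    rw [dense_iff_cyl]
    intro F x
    obtain ⟨_, ⟨p, rfl⟩, hp⟩ := dense_iff_cyl.1 hd F x
    obtain ⟨n, rfl⟩ := hg p
    exact ⟨pt (g n), mem_iUnion.2 ⟨n, rfl⟩, hp⟩

end

/-- **Powers of discrete spaces.**  Let `L` be a discrete space with at least two points, `I` an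
index set and `μ = max |L| ℵ₀`.  The power `L^I` is E-separable if and only if `|I| ≤ μ`, and it is
e-separable whenever `|I| ≤ 2^μ`.  In particular `L^I` is e-separable but not E-separable whenever
`μ < |I| ≤ 2^μ`. -/
theorem result (L I : Type u) [TopologicalSpace L] [DiscreteTopology L] [Nontrivial L] :
    (IsUpperESeparable (I → L) ↔ #I ≤ max #L ℵ₀) ∧
      (#I ≤ 2 ^ max #L ℵ₀ → IsLowerESeparable (I → L)) := by
  refine ⟨⟨fun h => ?_, upper⟩, lower⟩
  by_contra hcon
  exact not_upper (not_le.1 hcon) h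

end Pool.Agent.Results.MP_a67be6_gt.PowersOfDiscrete
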